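import Mathlib
import Pool.Agent.K4H74.PC.Main

/-!
The order of magnitude of `e_n`: best Hausdorff approximation (maximum norm) of closed convex
curves of length one by polynomial curves of degree at most `n` is of the exact order `n⁻²`.
-/

namespace Pool.Agent.Results.MP_24cacf_an.OrderOfMagnitude

open MeasureTheory Measure
open scoped ENNReal

/-- Length of a plane set `F`: its one dimensional Hausdorff measure for the Euclidean distance
(the plane is identified with `ℂ` by `(x, y) ↦ x + i y`). -/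
noncomputable def len (F : Set (ℝ × ℝ)) : ℝ≥0∞ :=
  μH[1] ((fun p : ℝ × ℝ => (⟨p.1, p.2⟩ : ℂ)) '' F)

/-- The class of closed convex curves of length one: boundaries of compact convex subsets of the
plane with nonempty interior, of length `1`. -/
def Gam : Set (Set (ℝ × ℝ)) :=
  {F | ∃ K : Set (ℝ × ℝ), IsCompact K ∧ Convex ℝ K ∧ (interior K).Nonempty ∧
    F = frontier K ∧ len F = 1}

/-- The polynomial curve `{(P t, Q t) : t ∈ [0,1]}`. -/
def curve (P Q : Polynomial ℝ) : Set (ℝ × ℝ) :=
  (fun t : ℝ => (P.eval t, Q.eval t)) '' Set.Icc 0 1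

/-- `E(H_n²; F)`: the infimum, over all polynomial curves of degree at most `n`, of the Hausdorff
distance to `F`.  The distance of `ℝ × ℝ` is the maximum distance. -/
noncomputable def E (n : ℕ) (F : Set (ℝ × ℝ)) : ℝ≥0∞ :=
  ⨅ (P : Polynomial ℝ) (Q : Polynomial ℝ) (_ : P.natDegree ≤ n) (_ : Q.natDegree ≤ n),
    Metric.hausdorffEDist F (curve P Q)

/-- `e_n`: the supremum of `E(H_n²; F)` over the closed convex curves of length one. -/
noncomputable def e (n : ℕ) : ℝ≥0∞ := ⨆ F ∈ Gam, E n F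

/-- **Order of magnitude of `e_n`.** -/
theorem result : ∀ n : ℕ, 1 ≤ n →
    ENNReal.ofReal (1 / (200 * ((n : ℝ) + 1) ^ 2)) ≤ e n ∧
      e n ≤ ENNReal.ofReal (36024 / ((n : ℝ) + 1) ^ 2) := by
  intro n hn
  constructor
  · obtain ⟨K, h1, h2, h3, h4, h5⟩ := Pool.Agent.K4H74.PC.lower_one hn
    have hmem : frontier K ∈ Gam := ⟨K, h1, h2, h3, rfl, h4⟩
    refine le_trans ?_ (le_iSup₂ (f := fun F (_ : F ∈ Gam) => E n F) (frontier K) hmem)
    exact le_iInf fun P => le_iInf fun Q => le_iInf fun hP => le_iInf fun hQ => h5 P Q hP hQ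
  · refine iSup₂_le fun F hF => ?_
    obtain ⟨K, h1, h2, h3, rfl, h4⟩ := hF
    obtain ⟨P, Q, hP, hQ, h⟩ := Pool.Agent.K4H74.PC.upper_one h1 h2
      (h3.mono interior_subset) (le_of_eq h4) n
    exact iInf_le_of_le P (iInf_le_of_le Q (iInf_le_of_le hP (iInf_le_of_le hQ h)))

end Pool.Agent.Results.MP_24cacf_an.OrderOfMagnitude
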